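import Mathlib

set_option autoImplicit false

namespace Pool.Agent.Results.MP_16faa7_an.Convex

/-- the admissible exponents -/
def S (γ α : ℝ) : Set ℝ :=
  {β | 0 < β ∧ ∀ z ∈ Set.Ioo (0 : ℝ) 1, γ * z ^ (β - α) * (1 - z ^ α) ≤ 1 - z}

/-- the threshold exponent -/
noncomputable def beta (γ α : ℝ) : ℝ := sInf (S γ α)

theorem iff_exp {γ α β : ℝ} (hα : 0 < α) :
    (∀ z ∈ Set.Ioo (0 : ℝ) 1, γ * z ^ (β - α) * (1 - z ^ α) ≤ 1 - z) ↔
      ∀ u : ℝ, u < 0 → γ * (Real.exp (-u) - 1) * Real.exp (u * (β / α)) + Real.exp (u * (1 / α)) ≤ 1 := by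
  have key : ∀ u : ℝ, γ * (Real.exp (u / α)) ^ (β - α) * (1 - (Real.exp (u / α)) ^ α) =
      γ * (Real.exp (-u) - 1) * Real.exp (u * (β / α)) := by
    intro u
    rw [← Real.exp_mul, ← Real.exp_mul, show u / α * α = u by field_simp,
      show u / α * (β - α) = -u + u * (β / α) by field_simp; ring, Real.exp_add]
    have : Real.exp (-u) * Real.exp u = 1 := by rw [← Real.exp_add]; simp
    linear_combination (-γ * Real.exp (u * (β / α))) * this
  constructor
  · intro h u hu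
    have := h (Real.exp (u / α)) ⟨Real.exp_pos _, Real.exp_lt_one_iff.mpr (div_neg_of_neg_of_pos hu hα)⟩
    rw [key] at this
    rw [mul_one_div]
    linarith
  · intro h z hz
    have hl : Real.log z < 0 := Real.log_neg hz.1 hz.2
    have := h (Real.log z * α) (mul_neg_of_neg_of_pos hl hα)
    have e : z = Real.exp (Real.log z * α / α) := by
      rw [mul_div_cancel_right₀ _ hα.ne', Real.exp_log hz.1]
    rw [← key, mul_one_div, ← e] at this
    linarith

theorem nonempty {γ α : ℝ} (hγ : 1 < γ) (hα : α ∈ Set.Ioo 0 (1 / γ)) : (S γ α).Nonempty := by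
  refine ⟨α + 1, by linarith [hα.1], fun z hz => ?_⟩
  have h1 : γ * α ≤ 1 := by
    have := hα.2
    rw [lt_div_iff₀ (by linarith)] at this
    linarith
  rw [add_sub_cancel_left, Real.rpow_one]
  have h2 : 1 - z ^ α ≤ α * (z⁻¹ - 1) := by
    rw [Real.rpow_def_of_pos hz.1]
    have a := Real.add_one_le_exp (Real.log z * α)
    have b := Real.log_le_sub_one_of_pos (inv_pos.mpr hz.1)
    rw [Real.log_inv] at b
    nlinarith [hα.1]
  have h3 : γ * z * (α * (z⁻¹ - 1)) = γ * α * (1 - z) := by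
    have := hz.1.ne'
    field_simp
  calc γ * z * (1 - z ^ α) ≤ γ * z * (α * (z⁻¹ - 1)) :=
        mul_le_mul_of_nonneg_left h2 (mul_nonneg (by linarith) hz.1.le)
    _ ≤ 1 - z := by rw [h3]; nlinarith [hz.2]

theorem comb {γ a1 a2 b1 b2 s t : ℝ} (hγ : 1 < γ) (h1 : 0 < a1) (h2 : 0 < a2) (hs : 0 < s)
    (ht : 0 < t) (hst : s + t = 1) (k1 : b1 ∈ S γ a1) (k2 : b2 ∈ S γ a2) :
    s * b1 + t * b2 ∈ S γ (s * a1 + t * a2) := by
  have ha : 0 < s * a1 + t * a2 := by positivity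
  refine ⟨by have := k1.1; have := k2.1; positivity, (iff_exp ha).mpr fun u hu => ?_⟩
  have e1 := (iff_exp h1).mp k1.2 u hu
  have e2 := (iff_exp h2).mp k2.2 u hu
  set θ := s * a1 / (s * a1 + t * a2) with hθ
  set η := t * a2 / (s * a1 + t * a2) with hη
  have hθ0 : 0 ≤ θ := by positivity
  have hη0 : 0 ≤ η := by positivity
  have hsum : θ + η = 1 := by rw [hθ, hη]; field_simp
  have c1 := convexOn_exp.2 (Set.mem_univ (u * (b1 / a1))) (Set.mem_univ (u * (b2 / a2))) hθ0 hη0 hsum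
  have c2 := convexOn_exp.2 (Set.mem_univ (u * (1 / a1))) (Set.mem_univ (u * (1 / a2))) hθ0 hη0 hsum
  simp only [smul_eq_mul] at c1 c2
  have f1 : θ * (u * (b1 / a1)) + η * (u * (b2 / a2)) = u * ((s * b1 + t * b2) / (s * a1 + t * a2)) := by
    rw [hθ, hη]; field_simp
  have f2 : θ * (u * (1 / a1)) + η * (u * (1 / a2)) = u * (1 / (s * a1 + t * a2)) := by
    rw [hθ, hη]; field_simp; linear_combination u * hst
  rw [f1] at c1
  rw [f2] at c2
  have hc : 0 ≤ γ * (Real.exp (-u) - 1) :=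
    mul_nonneg (by linarith) (by linarith [Real.add_one_le_exp (-u)])
  have := mul_le_mul_of_nonneg_left c1 hc
  nlinarith [mul_le_mul_of_nonneg_left e1 hθ0, mul_le_mul_of_nonneg_left e2 hη0]

theorem result (γ : ℝ) (hγ : 1 < γ) :
    (∀ α ∈ Set.Ioo 0 (1 / γ), (S γ α).Nonempty) ∧ ConvexOn ℝ (Set.Ioo 0 (1 / γ)) (beta γ) := by
  refine ⟨fun α hα => nonempty hγ hα, convexOn_iff_forall_pos.mpr ⟨convex_Ioo _ _, ?_⟩⟩
  intro a1 h1 a2 h2 s t hs ht hst
  simp only [smul_eq_mul]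
  have hb : ∀ α, BddBelow (S γ α) := fun α => ⟨0, fun β hβ => hβ.1.le⟩
  refine le_of_forall_pos_le_add fun ε hε => ?_
  obtain ⟨b1, k1, l1⟩ := exists_lt_of_csInf_lt (nonempty hγ h1) (lt_add_of_pos_right (beta γ a1) hε)
  obtain ⟨b2, k2, l2⟩ := exists_lt_of_csInf_lt (nonempty hγ h2) (lt_add_of_pos_right (beta γ a2) hε)
  have := csInf_le (hb _) (comb hγ h1.1 h2.1 hs ht hst k1 k2)
  unfold beta at *
  nlinarith

end Pool.Agent.Results.MP_16faa7_an.Convex
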